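import Pool.Agent.Y102.CM.Defs

set_option autoImplicit false

namespace Pool.Agent.Y102.CM

variable {G : Type} [AddCommGroup G] [Fintype G]

/-- A function with vanishing Fourier coefficients is zero. -/
theorem eq_zero_of_ft (f : G → ℂ) (h : ∀ χ : AddChar G ℂ, ft f χ = 0) (g : G) : f g = 0 := by
  classical
  have h1 : ∑ χ : AddChar G ℂ, χ (-g) * ft f χ = (Fintype.card G : ℂ) * f g := by
    unfold ft
    have h2 : ∀ χ : AddChar G ℂ, χ (-g) * ∑ x, χ x * f x = ∑ x, χ (x - g) * f x := by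
      intro χ
      rw [Finset.mul_sum]
      refine Finset.sum_congr rfl fun x _ => ?_
      rw [← mul_assoc, ← AddChar.map_add_eq_mul, neg_add_eq_sub]
    simp_rw [h2]
    rw [Finset.sum_comm]
    simp_rw [← Finset.sum_mul, AddChar.sum_apply_eq_ite, sub_eq_zero]
    simp
  have h3 : (Fintype.card G : ℂ) * f g = 0 := by
    rw [← h1]
    exact Finset.sum_eq_zero fun χ _ => by rw [h χ, mul_zero]
  have h4 : (Fintype.card G : ℂ) ≠ 0 := by
    exact_mod_cast Fintype.card_ne_zero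
  exact (mul_eq_zero.mp h3).resolve_left h4

/-- All values of a character are powers of one value. -/
lemma conj_gen (χ : AddChar G ℂ) : ∃ t : G, ∃ k : G → ℕ, ∀ g, χ g = χ t ^ k g := by
  classical
  let φ : Multiplicative G →* ℂˣ := (χ.toMonoidHom).toHomUnits
  have hφ : ∀ g : Multiplicative G, ((φ g : ℂˣ) : ℂ) = χ (Multiplicative.toAdd g) := fun g => rfl
  haveI : Finite (Multiplicative G) := inferInstanceAs (Finite G)
  haveI : Finite φ.range := Set.finite_range φ
  obtain ⟨⟨u, hu⟩, hgen⟩ := IsCyclic.exists_generator (α := φ.range)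
  obtain ⟨t, rfl⟩ := hu
  have key : ∀ g : G, ∃ k : ℕ, χ g = χ (Multiplicative.toAdd t) ^ k := by
    intro g
    have h1 := hgen ⟨φ (Multiplicative.ofAdd g), ⟨_, rfl⟩⟩
    rw [← mem_powers_iff_mem_zpowers] at h1
    obtain ⟨k, hk⟩ := h1
    refine ⟨k, ?_⟩
    have h2 := congrArg (fun x : φ.range => ((x : ℂˣ) : ℂ)) hk
    rw [← hφ t]
    have h3 : χ g = ((φ (Multiplicative.ofAdd g) : ℂˣ) : ℂ) := rfl
    rw [h3]
    simpa using h2.symm
  choose k hk using key
  exact ⟨_, k, hk⟩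

/-- Characters with the same kernel are conjugate over the rational numbers. -/
theorem ft_conj (N : G → ℤ) {χ ψ : AddChar G ℂ} (h : SameKer χ ψ)
    (h0 : ft (fun g => (N g : ℂ)) χ = 0) : ft (fun g => (N g : ℂ)) ψ = 0 := by
  classical
  obtain ⟨t, k, hk⟩ := conj_gen χ
  have hpow : ∀ (m : ℕ), ψ t ^ m = 1 ↔ χ t ^ m = 1 := by
    intro m
    rw [← AddChar.map_nsmul_eq_pow, ← AddChar.map_nsmul_eq_pow]
    exact (h _).symm
  have hfin : 0 < orderOf (χ t) := by
    rw [orderOf_pos_iff, isOfFinOrder_iff_pow_eq_one]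
    refine ⟨Fintype.card G, Fintype.card_pos, ?_⟩
    rw [← AddChar.map_nsmul_eq_pow, card_nsmul_eq_zero, AddChar.map_zero_eq_one]
  have hz : IsPrimitiveRoot (χ t) (orderOf (χ t)) := IsPrimitiveRoot.orderOf _
  have hw : IsPrimitiveRoot (ψ t) (orderOf (χ t)) := by
    refine ⟨(hpow _).mpr (pow_orderOf_eq_one _), ?_⟩
    intro l hl
    exact orderOf_dvd_of_pow_eq_one ((hpow l).mp hl)
  have hpsi : ∀ g, ψ g = ψ t ^ k g := by
    intro g
    have e1 : χ (g - k g • t) = 1 := by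
      rw [AddChar.map_sub_eq_div, AddChar.map_nsmul_eq_pow, ← hk g]
      refine div_self ?_
      rw [hk g]
      exact pow_ne_zero _ (hz.ne_zero hfin.ne')
    have e2 : ψ (g - k g • t) = 1 := (h _).mp e1
    have e3 : ψ g = ψ (k g • t + (g - k g • t)) := by rw [add_sub_cancel]
    rw [e3, AddChar.map_add_eq_mul, e2, mul_one, AddChar.map_nsmul_eq_pow]
  obtain ⟨P, hP⟩ : ∃ P : Polynomial ℤ, P = ∑ g, Polynomial.C (N g) * Polynomial.X ^ k g :=
    ⟨_, rfl⟩
  have ev : ∀ z : ℂ, Polynomial.aeval z P = ∑ g, z ^ k g * (N g : ℂ) := by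
    intro z
    rw [hP, map_sum]
    refine Finset.sum_congr rfl fun g _ => ?_
    simp [mul_comm]
  have e1 : Polynomial.aeval (χ t) P = 0 := by
    rw [ev]
    rw [← h0]
    unfold ft
    refine Finset.sum_congr rfl fun g _ => ?_
    rw [hk g]
  have e2 : minpoly ℤ (χ t) ∣ P :=
    minpoly.isIntegrallyClosed_dvd (hz.isIntegral hfin) e1
  rw [← Polynomial.cyclotomic_eq_minpoly hz hfin, Polynomial.cyclotomic_eq_minpoly hw hfin] at e2
  have e3 : Polynomial.aeval (ψ t) P = 0 := by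
    obtain ⟨Q, hQ⟩ := e2
    rw [hQ, map_mul, minpoly.aeval, zero_mul]
  rw [ev] at e3
  rw [← e3]
  unfold ft
  refine Finset.sum_congr rfl fun g _ => ?_
  rw [hpsi g]

end Pool.Agent.Y102.CM
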