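import Mathlib

set_option autoImplicit false

/-!
# CM types for abelian CM fields: definitions
-/

namespace Pool.Agent.Y102.CM

/-- Fourier coefficients on a finite abelian group. -/
noncomputable def ft {G : Type} [AddCommGroup G] [Fintype G] (f : G → ℂ) (χ : AddChar G ℂ) : ℂ :=
  ∑ g, χ g * f g

/-- The two characters have the same kernel. -/
def SameKer {G : Type} [AddCommGroup G] (χ ψ : AddChar G ℂ) : Prop := ∀ g, χ g = 1 ↔ ψ g = 1

end Pool.Agent.Y102.CM
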