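import Mathlib

set_option autoImplicit false

open scoped Real

namespace Pool.Agent.Y102.CM

/-- The fractional part of `a / D`. -/
noncomputable def fr {D : ℕ} (a : ZMod D) : ℝ := (a.val : ℝ) / D

/-- The value of the beta function at the fractional parts of `a / D` and `b / D`. -/
noncomputable def beta {D : ℕ} (a b : ZMod D) : ℝ :=
  Real.Gamma (fr a) * Real.Gamma (fr b) / Real.Gamma (fr a + fr b)

/-- The type: `1` if the sum of the fractional parts is smaller than one, otherwise `-1`. -/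
noncomputable def typ {D : ℕ} (a b : ZMod D) : ℤ := if fr a + fr b < 1 then 1 else -1

section gammaAux

variable {D : ℕ} [NeZero D]

theorem gamma_D : (0 : ℝ) < D := by exact_mod_cast NeZero.pos D

theorem gamma_nonneg (x : ZMod D) : 0 ≤ fr x := div_nonneg (Nat.cast_nonneg _) gamma_D.le

theorem gamma_lt (x : ZMod D) : fr x < 1 := by
  rw [fr, div_lt_one gamma_D]
  exact_mod_cast ZMod.val_lt x

theorem gamma_pos {x : ZMod D} (hx : x ≠ 0) : 0 < fr x := by
  refine div_pos ?_ gamma_D
  have h : x.val ≠ 0 := fun h => hx ((ZMod.val_eq_zero x).1 h)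
  exact_mod_cast Nat.pos_of_ne_zero h

theorem gamma_add_lt {x y : ZMod D} (h : fr x + fr y < 1) : fr (x + y) = fr x + fr y := by
  have h1 : x.val + y.val < D := by
    rw [fr, fr, ← add_div, div_lt_one gamma_D] at h
    exact_mod_cast h
  rw [fr, fr, fr, ZMod.val_add, Nat.mod_eq_of_lt h1]
  push_cast
  ring

theorem gamma_add_ge {x y : ZMod D} (h : ¬ fr x + fr y < 1) :
    fr x + fr y = fr (x + y) + 1 := by
  have h1 : D ≤ x.val + y.val := by
    rw [fr, fr, ← add_div, div_lt_one gamma_D] at h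
    have h2 : (D : ℝ) ≤ x.val + y.val := not_lt.1 h
    exact_mod_cast h2
  have h2 : (x.val + y.val) % D = x.val + y.val - D := by
    rw [Nat.mod_eq_sub_mod h1, Nat.mod_eq_of_lt]
    have := ZMod.val_lt x
    have := ZMod.val_lt y
    omega
  rw [fr, fr, fr, ZMod.val_add, h2, Nat.cast_sub h1]
  have hD := (gamma_D (D := D)).ne'
  push_cast
  field_simp
  ring

theorem gamma_zero : fr (0 : ZMod D) = 0 := by
  rw [fr, ZMod.val_zero, Nat.cast_zero, zero_div]

theorem gamma_neg {x : ZMod D} (hx : x ≠ 0) : fr (-x) = 1 - fr x := by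
  have h0 : x + -x = 0 := add_neg_cancel x
  by_cases h : fr x + fr (-x) < 1
  · have h1 := gamma_add_lt h
    rw [h0, gamma_zero] at h1
    have h2 := gamma_pos hx
    have h3 := gamma_nonneg (-x)
    linarith
  · have h1 := gamma_add_ge h
    rw [h0, gamma_zero] at h1
    linarith

theorem gamma_typ (x y : ZMod D) : (typ x y : ℝ) = 1 - 2 * (fr x + fr y - fr (x + y)) := by
  rw [typ]
  split_ifs with h
  · rw [gamma_add_lt h]
    push_cast
    ring
  · rw [gamma_add_ge h]
    push_cast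
    ring

/-- equality up to a nonzero algebraic factor -/
def gammaAlg (a b : ℝ) : Prop := ∃ q : ℝ, IsAlgebraic ℚ q ∧ q ≠ 0 ∧ a = q * b

theorem gammaAlg_refl (a : ℝ) : gammaAlg a a := ⟨1, isAlgebraic_one, one_ne_zero, (one_mul a).symm⟩

theorem gammaAlg_trans {a b c : ℝ} (h : gammaAlg a b) (h' : gammaAlg b c) : gammaAlg a c := by
  obtain ⟨q, h1, h2, rfl⟩ := h
  obtain ⟨r, h3, h4, rfl⟩ := h'
  exact ⟨q * r, h1.mul h3, mul_ne_zero h2 h4, by ring⟩

theorem gammaAlg_mul {a b c d : ℝ} (h : gammaAlg a b) (h' : gammaAlg c d) :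
    gammaAlg (a * c) (b * d) := by
  obtain ⟨q, h1, h2, rfl⟩ := h
  obtain ⟨r, h3, h4, rfl⟩ := h'
  exact ⟨q * r, h1.mul h3, mul_ne_zero h2 h4, by ring⟩

theorem gammaAlg_prod {ι : Type} (s : Finset ι) (f g : ι → ℝ) (h : ∀ i ∈ s, gammaAlg (f i) (g i)) :
    gammaAlg (∏ i ∈ s, f i) (∏ i ∈ s, g i) := by
  classical
  induction s using Finset.induction_on with
  | empty => simpa using gammaAlg_refl 1
  | insert i s hi ih =>
    rw [Finset.prod_insert hi, Finset.prod_insert hi]
    exact gammaAlg_mul (h i (Finset.mem_insert_self i s))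
      (ih fun j hj => h j (Finset.mem_insert_of_mem hj))

theorem gammaAlg_alg {a b : ℝ} (h : gammaAlg a b) (hb : IsAlgebraic ℚ b) : IsAlgebraic ℚ a := by
  obtain ⟨q, h1, _, rfl⟩ := h
  exact h1.mul hb

theorem gamma_ne {s : ℝ} (hs : 0 < s) : Real.Gamma s ≠ 0 := (Real.Gamma_pos_of_pos hs).ne'

theorem gamma_fr_alg (x : ZMod D) : IsAlgebraic ℚ (fr x) := by
  have h : fr x = algebraMap ℚ ℝ ((x.val : ℚ) / D) := by
    rw [fr, eq_ratCast]
    push_cast
    rfl
  rw [h]
  exact isAlgebraic_algebraMap _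

theorem gamma_beta {x y : ZMod D} (hxy : x + y ≠ 0) :
    gammaAlg (beta x y)
      (Real.Gamma (fr x) * Real.Gamma (fr y) / Real.Gamma (fr (x + y))) := by
  have h1 := gamma_pos hxy
  by_cases h : fr x + fr y < 1
  · rw [beta, gamma_add_lt h]
    exact gammaAlg_refl _
  · refine ⟨(fr (x + y))⁻¹, (gamma_fr_alg _).inv, inv_ne_zero h1.ne', ?_⟩
    rw [beta, gamma_add_ge h, Real.Gamma_add_one h1.ne']
    have h2 := gamma_ne h1
    have h3 := h1.ne'
    field_simp

theorem gamma_tel (x : ZMod D) (j : ℕ) (hj : ∀ k, 1 ≤ k → k ≤ j + 1 → k • x ≠ 0) :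
    gammaAlg (∏ k ∈ Finset.range j, beta x ((k + 1) • x))
      (Real.Gamma (fr x) ^ (j + 1) / Real.Gamma (fr ((j + 1) • x))) := by
  have hx : x ≠ 0 := by
    have := hj 1 le_rfl (by omega)
    rwa [one_nsmul] at this
  induction j with
  | zero =>
    rw [Finset.range_zero, Finset.prod_empty, zero_add, pow_one, one_nsmul,
      div_self (gamma_ne (gamma_pos hx))]
    exact gammaAlg_refl 1
  | succ j ih =>
    have ih' := ih fun k h1 h2 => hj k h1 (by omega)
    have hs : x + (j + 1) • x = (j + 1 + 1) • x := by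
      rw [add_comm, ← succ_nsmul]
    have hb : gammaAlg (beta x ((j + 1) • x)) _ := gamma_beta
      (by rw [hs]; exact hj (j + 1 + 1) (by omega) (by omega))
    rw [Finset.prod_range_succ]
    refine gammaAlg_trans (gammaAlg_mul ih' hb) ?_
    rw [hs]
    have h1 := gamma_ne (gamma_pos (hj (j + 1) (by omega) (by omega)))
    have h2 := gamma_ne (gamma_pos (hj (j + 1 + 1) (by omega) (by omega)))
    have h3 : Real.Gamma (fr x) ^ (j + 1) / Real.Gamma (fr ((j + 1) • x)) *
        (Real.Gamma (fr x) * Real.Gamma (fr ((j + 1) • x)) / Real.Gamma (fr ((j + 1 + 1) • x))) =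
        Real.Gamma (fr x) ^ (j + 1 + 1) / Real.Gamma (fr ((j + 1 + 1) • x)) := by
      field_simp
      ring
    rw [h3]
    exact gammaAlg_refl _

theorem gamma_sin {x : ZMod D} (hx : x ≠ 0) :
    IsAlgebraic ℚ (Real.sin (π * fr x)) ∧ Real.sin (π * fr x) ≠ 0 := by
  constructor
  · have h : π * fr x = ((x.val : ℚ) / D : ℚ) * π := by
      rw [fr]
      push_cast
      ring
    rw [h]
    exact (Real.isAlgebraic_sin_rat_mul_pi _).extendScalars (algebraMap ℤ ℚ).injective_int
  · refine (Real.sin_pos_of_pos_of_lt_pi (mul_pos Real.pi_pos (gamma_pos hx)) ?_).ne'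
    have h1 := gamma_lt x
    nlinarith [Real.pi_pos]

theorem gamma_G {x : ZMod D} (hx : x ≠ 0) :
    gammaAlg (∏ k ∈ Finset.range (addOrderOf x - 2), beta x ((k + 1) • x))
      (Real.Gamma (fr x) ^ addOrderOf x / π) := by
  have hn : 2 ≤ addOrderOf x := by
    have h1 : addOrderOf x ≠ 1 := fun h => hx (AddMonoid.addOrderOf_eq_one_iff.1 h)
    have h2 : 0 < addOrderOf x := addOrderOf_pos x
    omega
  obtain ⟨j, hj⟩ : ∃ j, addOrderOf x = j + 2 := ⟨addOrderOf x - 2, by omega⟩
  have h1 := gamma_tel x j fun k hk1 hk2 h => by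
    have := Nat.le_of_dvd (by omega) (addOrderOf_dvd_of_nsmul_eq_zero h)
    omega
  have h2 : (j + 1) • x = -x := by
    rw [eq_neg_iff_add_eq_zero, ← succ_nsmul, show j + 1 + 1 = addOrderOf x by omega,
      addOrderOf_nsmul_eq_zero]
  rw [h2, gamma_neg hx] at h1
  rw [hj, Nat.add_sub_cancel]
  refine gammaAlg_trans h1 ?_
  obtain ⟨h3, h4⟩ := gamma_sin hx
  refine ⟨Real.sin (π * fr x), h3, h4, ?_⟩
  have h5 := Real.Gamma_mul_Gamma_one_sub (fr x)
  have h6 : Real.Gamma (1 - fr x) ≠ 0 := gamma_ne (by linarith [gamma_lt x])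
  have h7 := gamma_ne (gamma_pos hx)
  have hpi := Real.pi_ne_zero
  rw [eq_div_iff h4] at h5
  have h8 : Real.sin (π * fr x) * (Real.Gamma (fr x) ^ (j + 2) / π) * Real.Gamma (1 - fr x) =
      Real.Gamma (fr x) ^ (j + 1) *
        (Real.Gamma (fr x) * Real.Gamma (1 - fr x) * Real.sin (π * fr x) / π) := by
    ring
  rw [div_eq_iff h6, h8, h5, div_self hpi, mul_one]

theorem gamma_sum_typ (x : ZMod D) (j : ℕ) :
    ((∑ k ∈ Finset.range j, typ x ((k + 1) • x) : ℤ) : ℝ) =
      j - 2 * (j * fr x + fr x - fr ((j + 1) • x)) := by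
  induction j with
  | zero => simp
  | succ j ih =>
    rw [Finset.sum_range_succ]
    push_cast at ih ⊢
    rw [ih, gamma_typ, show x + (j + 1) • x = (j + 1 + 1) • x by rw [add_comm, ← succ_nsmul]]
    ring

theorem gamma_S {x : ZMod D} (hx : x ≠ 0) :
    ((∑ k ∈ Finset.range (addOrderOf x - 2), typ x ((k + 1) • x) : ℤ) : ℝ) =
      addOrderOf x * (1 - 2 * fr x) := by
  have hn : 2 ≤ addOrderOf x := by
    have h1 : addOrderOf x ≠ 1 := fun h => hx (AddMonoid.addOrderOf_eq_one_iff.1 h)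
    have h2 : 0 < addOrderOf x := addOrderOf_pos x
    omega
  obtain ⟨j, hj⟩ : ∃ j, addOrderOf x = j + 2 := ⟨addOrderOf x - 2, by omega⟩
  have h2 : (j + 1) • x = -x := by
    rw [eq_neg_iff_add_eq_zero, ← succ_nsmul, show j + 1 + 1 = addOrderOf x by omega,
      addOrderOf_nsmul_eq_zero]
  rw [hj, Nat.add_sub_cancel, gamma_sum_typ, h2, gamma_neg hx]
  push_cast
  ring

theorem gamma_ord (u : (ZMod D)ˣ) (x : ZMod D) : addOrderOf ((u : ZMod D) * x) = addOrderOf x :=
  addOrderOf_injective (AddMonoidHom.mulLeft (u : ZMod D)) (fun _ _ h => u.mul_right_inj.1 h) x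

end gammaAux

/-- If the periods of Fermat curves satisfy only the expected relations (for all conjugates at the
same time), then so do the values of the gamma function. -/
theorem gamma_of_beta {D : ℕ} [NeZero D]
    (hB : ∀ (m : ℕ) (a b : Fin (2 * m) → ZMod D),
      (∀ i, a i ≠ 0 ∧ b i ≠ 0 ∧ a i + b i ≠ 0) →
      (∀ u : (ZMod D)ˣ, IsAlgebraic ℚ ((∏ i, beta ((u : ZMod D) * a i) ((u : ZMod D) * b i)) / π ^ m)) →
      ∀ u : (ZMod D)ˣ, ∑ i, typ ((u : ZMod D) * a i) ((u : ZMod D) * b i) = 0)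
    {r : ℕ} (a : Fin r → ZMod D) (ha : ∀ i, a i ≠ 0)
    (h : ∀ u : (ZMod D)ˣ, IsAlgebraic ℚ ((∏ i, Real.Gamma (fr ((u : ZMod D) * a i))) ^ 2 / π ^ r))
    (u : (ZMod D)ˣ) : ∑ i, fr ((u : ZMod D) * a i) = r / 2 := by
  classical
  let n : Fin r → ℕ := fun i => addOrderOf (a i)
  have hn2 : ∀ i, 2 ≤ n i := fun i => by
    have h1 : addOrderOf (a i) ≠ 1 := fun h => ha i (AddMonoid.addOrderOf_eq_one_iff.1 h)
    have h2 : 0 < addOrderOf (a i) := addOrderOf_pos (a i)
    change 2 ≤ addOrderOf (a i)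
    omega
  have hnD : ∀ i, n i ∣ D := fun i => by
    have h1 := addOrderOf_dvd_natCard (a i)
    rwa [Nat.card_zmod] at h1
  choose d hd using hnD
  let m : ℕ := ∑ i, d i * (n i - 2)
  let I : Type := Σ i : Fin r, Fin (2 * d i) × Fin (n i - 2)
  have hcard : Fintype.card I = 2 * m := by
    change Fintype.card (Σ i : Fin r, Fin (2 * d i) × Fin (n i - 2)) = _
    rw [Fintype.card_sigma, Finset.mul_sum]
    refine Finset.sum_congr rfl fun i _ => ?_
    rw [Fintype.card_prod, Fintype.card_fin, Fintype.card_fin]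
    ring
  let ε : Fin (2 * m) ≃ I := (Fintype.equivFinOfCardEq hcard).symm
  let A : I → ZMod D := fun p => a p.1
  let B : I → ZMod D := fun p => ((p.2.2 : ℕ) + 1) • a p.1
  have hk : ∀ i : Fin r, ∀ k : ℕ, 1 ≤ k → k < n i → k • a i ≠ 0 := fun i k h1 h2 h3 => by
    have := Nat.le_of_dvd h1 (addOrderOf_dvd_of_nsmul_eq_zero h3)
    have h4 : k < addOrderOf (a i) := h2
    omega
  have hD : (0 : ℝ) < D := gamma_D
  have hdn : ∀ i, (D : ℝ) = n i * d i := fun i => by exact_mod_cast hd i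
  have key := hB m (fun j => A (ε j)) (fun j => B (ε j)) (fun j => ?_) (fun u => ?_) u
  · -- the conclusion
    have h1 : ∑ j, typ ((u : ZMod D) * A (ε j)) ((u : ZMod D) * B (ε j)) =
        ∑ p : I, typ ((u : ZMod D) * A p) ((u : ZMod D) * B p) :=
      Equiv.sum_comp ε fun p => typ ((u : ZMod D) * A p) ((u : ZMod D) * B p)
    rw [h1] at key
    have h2 : (∑ p : I, typ ((u : ZMod D) * A p) ((u : ZMod D) * B p)) =
        ∑ i : Fin r, (2 * d i : ℕ) * ∑ k ∈ Finset.range (n i - 2),
          typ ((u : ZMod D) * a i) ((k + 1) • ((u : ZMod D) * a i)) := by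
      change (∑ p : (Σ i : Fin r, Fin (2 * d i) × Fin (n i - 2)),
        typ ((u : ZMod D) * A p) ((u : ZMod D) * B p)) = _
      rw [Fintype.sum_sigma]
      refine Finset.sum_congr rfl fun i _ => ?_
      rw [Fintype.sum_prod_type]
      have e : ∀ t : Fin (2 * d i), (∑ k : Fin (n i - 2),
          typ ((u : ZMod D) * A ⟨i, (t, k)⟩) ((u : ZMod D) * B ⟨i, (t, k)⟩)) =
          ∑ k ∈ Finset.range (n i - 2),
            typ ((u : ZMod D) * a i) ((k + 1) • ((u : ZMod D) * a i)) := by
        intro t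
        rw [Finset.sum_range]
        refine Finset.sum_congr rfl fun k _ => ?_
        change typ ((u : ZMod D) * a i) ((u : ZMod D) * (((k : ℕ) + 1) • a i)) = _
        rw [mul_smul_comm]
      rw [Finset.sum_congr rfl fun t _ => e t, Finset.sum_const, Finset.card_univ,
        Fintype.card_fin, nsmul_eq_mul]
    rw [h2] at key
    have h3 : ((∑ i : Fin r, (2 * d i : ℕ) * ∑ k ∈ Finset.range (n i - 2),
          typ ((u : ZMod D) * a i) ((k + 1) • ((u : ZMod D) * a i)) : ℤ) : ℝ) = 0 := by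
      rw [key, Int.cast_zero]
    rw [Int.cast_sum] at h3
    have h4 : ∀ i : Fin r, (((2 * d i : ℕ) * ∑ k ∈ Finset.range (n i - 2),
          typ ((u : ZMod D) * a i) ((k + 1) • ((u : ZMod D) * a i)) : ℤ) : ℝ) =
          2 * D * (1 - 2 * fr ((u : ZMod D) * a i)) := by
      intro i
      have h5 := gamma_S (x := (u : ZMod D) * a i) (by
        intro h0
        exact ha i (u.mul_right_eq_zero.1 h0))
      rw [gamma_ord] at h5
      rw [Int.cast_mul]
      have h6 : ((∑ k ∈ Finset.range (n i - 2),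
          typ ((u : ZMod D) * a i) ((k + 1) • ((u : ZMod D) * a i)) : ℤ) : ℝ) =
          n i * (1 - 2 * fr ((u : ZMod D) * a i)) := h5
      rw [h6, hdn i]
      push_cast
      ring
    rw [Finset.sum_congr rfl fun i _ => h4 i, ← Finset.mul_sum, Finset.sum_sub_distrib,
      ← Finset.mul_sum] at h3
    simp only [Finset.sum_const, Finset.card_univ, Fintype.card_fin, nsmul_eq_mul, mul_one] at h3
    have h5 : (r : ℝ) - 2 * ∑ i, fr ((u : ZMod D) * a i) = 0 := by
      rcases mul_eq_zero.1 h3 with h6 | h6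
      · linarith
      · exact h6
    linarith
  · -- the indices are admissible
    have hlt : ((ε j).2.2 : ℕ) < n (ε j).1 - 2 := (ε j).2.2.2
    refine ⟨ha _, hk _ _ (by omega) (by omega), ?_⟩
    have h1 : A (ε j) + B (ε j) = (((ε j).2.2 : ℕ) + 2) • a (ε j).1 := by
      change a (ε j).1 + (((ε j).2.2 : ℕ) + 1) • a (ε j).1 = _
      rw [add_comm, ← succ_nsmul]
    rw [h1]
    exact hk _ _ (by omega) (by omega)
  · -- algebraicity
    have h1 : ∏ j, beta ((u : ZMod D) * A (ε j)) ((u : ZMod D) * B (ε j)) =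
        ∏ p : I, beta ((u : ZMod D) * A p) ((u : ZMod D) * B p) :=
      Equiv.prod_comp ε fun p => beta ((u : ZMod D) * A p) ((u : ZMod D) * B p)
    have h2 : (∏ p : I, beta ((u : ZMod D) * A p) ((u : ZMod D) * B p)) =
        ∏ i : Fin r, ∏ _t ∈ Finset.range (2 * d i), ∏ k ∈ Finset.range (n i - 2),
          beta ((u : ZMod D) * a i) ((k + 1) • ((u : ZMod D) * a i)) := by
      change (∏ p : (Σ i : Fin r, Fin (2 * d i) × Fin (n i - 2)),
        beta ((u : ZMod D) * A p) ((u : ZMod D) * B p)) = _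
      rw [Fintype.prod_sigma]
      refine Finset.prod_congr rfl fun i _ => ?_
      rw [Fintype.prod_prod_type, Finset.prod_range]
      refine Finset.prod_congr rfl fun t _ => ?_
      rw [Finset.prod_range]
      refine Finset.prod_congr rfl fun k _ => ?_
      change beta ((u : ZMod D) * a i) ((u : ZMod D) * (((k : ℕ) + 1) • a i)) = _
      rw [mul_smul_comm]
    have h3 : gammaAlg (∏ i : Fin r, ∏ _t ∈ Finset.range (2 * d i),
        ∏ k ∈ Finset.range (n i - 2),
          beta ((u : ZMod D) * a i) ((k + 1) • ((u : ZMod D) * a i)))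
        (∏ i : Fin r, ∏ _t ∈ Finset.range (2 * d i),
          (Real.Gamma (fr ((u : ZMod D) * a i)) ^ n i / π)) := by
      refine gammaAlg_prod _ _ _ fun i _ => gammaAlg_prod _ _ _ fun t _ => ?_
      have h5 := gamma_G (x := (u : ZMod D) * a i) (by
        intro h0
        exact ha i (u.mul_right_eq_zero.1 h0))
      rw [gamma_ord] at h5
      exact h5
    have hpi := Real.pi_ne_zero
    have h4 : (∏ i : Fin r, ∏ _t ∈ Finset.range (2 * d i),
          (Real.Gamma (fr ((u : ZMod D) * a i)) ^ n i / π)) / π ^ m =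
        ((∏ i, Real.Gamma (fr ((u : ZMod D) * a i))) ^ 2 / π ^ r) ^ D := by
      have e1 : ∀ i : Fin r, (∏ _t ∈ Finset.range (2 * d i),
          (Real.Gamma (fr ((u : ZMod D) * a i)) ^ n i / π)) / π ^ (d i * (n i - 2)) =
          (Real.Gamma (fr ((u : ZMod D) * a i)) ^ 2 / π) ^ D := by
        intro i
        rw [Finset.prod_const, Finset.card_range, div_pow, div_pow, div_div, ← pow_add]
        congr 1
        · rw [← pow_mul, ← pow_mul]
          congr 1
          rw [hd i]
          ring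
        · congr 1
          obtain ⟨j, hj⟩ : ∃ j, n i = j + 2 := ⟨n i - 2, by have := hn2 i; omega⟩
          rw [hj, Nat.add_sub_cancel, hd i, hj]
          ring
      calc _ = ∏ i : Fin r, ((∏ _t ∈ Finset.range (2 * d i),
          (Real.Gamma (fr ((u : ZMod D) * a i)) ^ n i / π)) / π ^ (d i * (n i - 2))) := by
            rw [Finset.prod_div_distrib, Finset.prod_pow_eq_pow_sum]
        _ = ∏ i : Fin r, (Real.Gamma (fr ((u : ZMod D) * a i)) ^ 2 / π) ^ D :=
            Finset.prod_congr rfl fun i _ => e1 i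
        _ = _ := by
            rw [Finset.prod_pow, Finset.prod_div_distrib, Finset.prod_pow, Finset.prod_const,
              Finset.card_univ, Fintype.card_fin]
    rw [h1, h2]
    obtain ⟨q, hq1, hq2, hq3⟩ := h3
    rw [hq3, mul_div_assoc, h4]
    exact hq1.mul ((h u).pow D)

end Pool.Agent.Y102.CM
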