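import Pool.Agent.Y102.CM.Conj

set_option autoImplicit false

namespace Pool.Agent.Y102.CM

variable {G J : Type} [AddCommGroup G] [Fintype G] [AddAction G J]

/-- The family of the CM types `ε` is saturated: for each odd character `χ` there are `j` and `h`
such that the type of `j` is not stable under `h`, and the Fourier coefficients of the type of `j`
vanish at all characters which are not trivial on `h` and whose kernel is not that of `χ`. -/
def Saturated (ε : J → ℤ) (c : G) : Prop := ∀ χ : AddChar G ℂ, χ c = -1 → ∃ (j : J) (h : G),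
  (∃ g : G, ε (g +ᵥ (h +ᵥ j)) ≠ ε (g +ᵥ j)) ∧
    ∀ ψ : AddChar G ℂ, ft (fun g : G => (ε (g +ᵥ j) : ℂ)) ψ ≠ 0 → SameKer χ ψ ∨ ψ h = 1

theorem ft_shift (f : G → ℂ) (h : G) (ψ : AddChar G ℂ) :
    ft (fun g => f (h + g)) ψ = ψ (-h) * ft f ψ := by
  unfold ft
  rw [Finset.mul_sum]
  refine Fintype.sum_equiv (Equiv.addLeft h) _ _ fun g => ?_
  change ψ g * f (h + g) = ψ (-h) * (ψ (h + g) * f (h + g))
  rw [← mul_assoc, ← AddChar.map_add_eq_mul, neg_add_cancel_left]

/-- The Fourier coefficients of a convolution. -/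
theorem ft_conv (u f : G → ℂ) (ψ : AddChar G ℂ) :
    ft (fun s => ∑ g, u g * f (g + s)) ψ = (∑ g, u g * ψ (-g)) * ft f ψ := by
  have h1 : ft (fun s => ∑ g, u g * f (g + s)) ψ = ∑ g, u g * ft (fun s => f (g + s)) ψ := by
    unfold ft
    simp only [Finset.mul_sum]
    rw [Finset.sum_comm]
    refine Finset.sum_congr rfl fun g _ => Finset.sum_congr rfl fun s _ => ?_
    ring
  rw [h1, Finset.sum_mul]
  refine Finset.sum_congr rfl fun g _ => ?_
  rw [ft_shift, mul_assoc]

theorem SameKer.symm {χ ψ : AddChar G ℂ} (h : SameKer χ ψ) : SameKer ψ χ := fun g => (h g).symm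

/-- Relations between the periods come from the types. -/
theorem relation {ε : J → ℤ} {c : G} (hc : ∀ j, ε (c +ᵥ j) = -ε j) (sat : Saturated ε c)
    (u : G → ℂ) (sep : ∀ j j', (∑ g, u g * (ε (g +ᵥ j) : ℂ) = ∑ g, u g * (ε (g +ᵥ j') : ℂ)) →
      ∀ g : G, ε (g +ᵥ j) = ε (g +ᵥ j'))
    {r : ℕ} (k : Fin r → J)
    (rel : ∀ s : G, ∑ l, ∑ g, u g * (ε (g +ᵥ (s +ᵥ k l)) : ℂ) = 0) (g : G) :
    ∑ l, ε (g +ᵥ k l) = 0 := by
  classical
  obtain ⟨N, hN⟩ : ∃ N : G → ℤ, ∀ g, N g = ∑ l, ε (g +ᵥ k l) := ⟨_, fun g => rfl⟩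
  have hconv : ∀ ψ : AddChar G ℂ, (∑ g, u g * ψ (-g)) * ft (fun g => (N g : ℂ)) ψ = 0 := by
    intro ψ
    rw [← ft_conv]
    unfold ft
    refine Finset.sum_eq_zero fun s _ => ?_
    have h1 : ∑ g, u g * (N (g + s) : ℂ) = 0 := by
      rw [← rel s, Finset.sum_comm]
      refine Finset.sum_congr rfl fun g _ => ?_
      rw [hN, Int.cast_sum, Finset.mul_sum]
      refine Finset.sum_congr rfl fun l _ => ?_
      rw [add_vadd]
    exact mul_eq_zero_of_right _ h1
  by_contra hne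
  rw [← hN] at hne
  obtain ⟨χ, hχ⟩ : ∃ χ : AddChar G ℂ, ft (fun g => (N g : ℂ)) χ ≠ 0 := by
    by_contra hcon
    push Not at hcon
    exact hne (by exact_mod_cast eq_zero_of_ft _ hcon g)
  have hodd : χ c = -1 := by
    have h1 := ft_shift (fun g => (N g : ℂ)) c χ
    have h2 : (fun g => ((N (c + g) : ℤ) : ℂ)) = fun g => -((N g : ℤ) : ℂ) := by
      funext g
      rw [hN, hN, ← Int.cast_neg, ← Finset.sum_neg_distrib]
      congr 1
      refine Finset.sum_congr rfl fun l _ => ?_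
      rw [add_vadd, hc]
    rw [h2] at h1
    have h3 : ft (fun g => -((N g : ℤ) : ℂ)) χ = -ft (fun g => (N g : ℂ)) χ := by
      unfold ft
      rw [← Finset.sum_neg_distrib]
      exact Finset.sum_congr rfl fun g _ => by ring
    rw [h3] at h1
    have h4 : (χ (-c) + 1) * ft (fun g => (N g : ℂ)) χ = 0 := by
      rw [add_mul, ← h1]
      ring
    have h5 := (mul_eq_zero.1 h4).resolve_right hχ
    have h6 : χ (-c) * χ c = 1 := by
      rw [← AddChar.map_add_eq_mul, neg_add_cancel, AddChar.map_zero_eq_one]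
    have h7 : χ (-c) = -1 := eq_neg_of_add_eq_zero_left h5
    rw [h7] at h6
    linear_combination -h6
  obtain ⟨j, h, ⟨g0, hg0⟩, hsup⟩ := sat χ hodd
  apply hg0
  have hu : ∀ ψ : AddChar G ℂ, SameKer χ ψ → ∑ g, u g * ψ (-g) = 0 := by
    intro ψ hk
    refine (mul_eq_zero.1 (hconv ψ)).resolve_right fun h1 => hχ ?_
    exact ft_conj N hk.symm h1
  let F : G → ℂ := fun s => ∑ g, u g * (ε (g +ᵥ (s +ᵥ j)) : ℂ)
  have hF : ∀ ψ : AddChar G ℂ, ft F ψ = (∑ g, u g * ψ (-g)) *
      ft (fun g : G => (ε (g +ᵥ j) : ℂ)) ψ := by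
    intro ψ
    rw [← ft_conv]
    congr 1
    funext s
    refine Finset.sum_congr rfl fun g _ => ?_
    rw [add_vadd]
  have hF2 : ∀ s, F (h + s) - F s = 0 := by
    refine eq_zero_of_ft (fun s => F (h + s) - F s) fun ψ => ?_
    have h1 : ft (fun s => F (h + s) - F s) ψ = ft (fun s => F (h + s)) ψ - ft F ψ := by
      unfold ft
      rw [← Finset.sum_sub_distrib]
      exact Finset.sum_congr rfl fun g _ => by ring
    rw [h1, ft_shift, ← sub_one_mul]
    by_cases h2 : ft (fun g : G => (ε (g +ᵥ j) : ℂ)) ψ = 0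
    · rw [hF, h2, mul_zero, mul_zero]
    · rcases hsup ψ h2 with h3 | h3
      · rw [hF, hu ψ h3, zero_mul, mul_zero]
      · have h4 : ψ (-h) = 1 := by
          have h6 : ψ (-h) * ψ h = 1 := by
            rw [← AddChar.map_add_eq_mul, neg_add_cancel, AddChar.map_zero_eq_one]
          rwa [h3, mul_one] at h6
        rw [h4, sub_self, zero_mul]
  refine sep (h +ᵥ j) j ?_ g0
  have h1 := sub_eq_zero.1 (hF2 0)
  simp only [F, add_zero, zero_vadd] at h1
  exact h1

end Pool.Agent.Y102.CM
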