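import Mathlib

set_option autoImplicit false

open scoped Real

namespace Pool.Agent.Y102.CM

/-- The root of unity. -/
noncomputable def zeta (D : ℕ) : ℂ := Complex.exp (2 * π * Complex.I / D)

theorem trace_prim (D : ℕ) [NeZero D] : IsPrimitiveRoot (zeta D) D :=
  Complex.isPrimitiveRoot_exp D (NeZero.ne D)

theorem trace_inj {D : ℕ} [NeZero D] {u v : (ZMod D)ˣ}
    (h : zeta D ^ (u : ZMod D).val = zeta D ^ (v : ZMod D).val) : u = v := by
  have h1 := (trace_prim D).pow_inj (ZMod.val_lt _) (ZMod.val_lt _) h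
  exact Units.ext (ZMod.val_injective D h1)

theorem trace_rat_cast (f : ℂ ≃+* ℂ) (q : ℚ) : f (q : ℂ) = q := map_ratCast f q

/-- The restriction of an automorphism to the cyclotomic field. -/
noncomputable def traceHom {D : ℕ} (f : ℂ ≃+* ℂ) :
    (IntermediateField.adjoin ℚ {zeta D}) →ₐ[ℚ] ℂ :=
  { (f : ℂ →+* ℂ).comp (algebraMap (IntermediateField.adjoin ℚ {zeta D}) ℂ) with
    commutes' := fun q => by
      change f (algebraMap ℚ ℂ q) = algebraMap ℚ ℂ q
      rw [eq_ratCast]
      exact map_ratCast f q }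

theorem traceHom_apply {D : ℕ} (f : ℂ ≃+* ℂ) (x : IntermediateField.adjoin ℚ {zeta D}) :
    traceHom f x = f (x : ℂ) := rfl

/-- The sum of the conjugates of an element of the cyclotomic field is rational. -/
theorem trace_rat {D : ℕ} [NeZero D] (τ : (ZMod D)ˣ → ℂ ≃+* ℂ)
    (hτ : ∀ u, τ u (zeta D) = zeta D ^ (u : ZMod D).val) {z : ℂ}
    (hz : z ∈ Algebra.adjoin ℚ {zeta D}) : ∃ q : ℚ, ∑ u, τ u z = (q : ℂ) := by
  have hz' : z ∈ IntermediateField.adjoin ℚ {zeta D} :=
    IntermediateField.algebra_adjoin_le_adjoin ℚ _ hz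
  have hcyc : IsCyclotomicExtension {D} ℚ (IntermediateField.adjoin ℚ {zeta D}) :=
    (IntermediateField.isCyclotomicExtension_singleton_iff_eq_adjoin _ _ _
      (IntermediateField.adjoin ℚ {zeta D}) (trace_prim D)).2 rfl
  have : FiniteDimensional ℚ (IntermediateField.adjoin ℚ {zeta D}) :=
    IsCyclotomicExtension.finiteDimensional {D} ℚ _
  have hinj : Function.Injective (fun u => traceHom (D := D) (τ u)) := by
    intro u v huv
    have h1 := DFunLike.congr_fun huv
      ⟨zeta D, IntermediateField.mem_adjoin_simple_self ℚ (zeta D)⟩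
    simp only [traceHom_apply, hτ] at h1
    exact trace_inj h1
  have hcard : Fintype.card (ZMod D)ˣ =
      Fintype.card ((IntermediateField.adjoin ℚ {zeta D}) →ₐ[ℚ] ℂ) := by
    rw [AlgHom.card, ZMod.card_units_eq_totient,
      IsCyclotomicExtension.finrank (n := D) (K := ℚ) (IntermediateField.adjoin ℚ {zeta D})
        (Polynomial.cyclotomic.irreducible_rat (NeZero.pos D))]
  have hbij := (Fintype.bijective_iff_injective_and_card _).2 ⟨hinj, hcard⟩
  refine ⟨Algebra.trace ℚ (IntermediateField.adjoin ℚ {zeta D}) ⟨z, hz'⟩, ?_⟩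
  have h2 := trace_eq_sum_embeddings (K := ℚ) (L := IntermediateField.adjoin ℚ {zeta D}) ℂ
    (x := ⟨z, hz'⟩)
  rw [eq_ratCast] at h2
  rw [h2]
  exact Fintype.sum_bijective _ hbij _ _ fun u => rfl

/-- The conjugations are linearly independent on the cyclotomic field. -/
theorem conj_indep {D : ℕ} [NeZero D] (τ : (ZMod D)ˣ → ℂ ≃+* ℂ)
    (hτ : ∀ u, τ u (zeta D) = zeta D ^ (u : ZMod D).val) (C : (ZMod D)ˣ → ℂ)
    (h : ∀ z ∈ Algebra.adjoin ℚ {zeta D}, ∑ u, C u * τ u z = 0) (u : (ZMod D)ˣ) : C u = 0 := by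
  let g : (ZMod D)ˣ → ((Algebra.adjoin ℚ {zeta D}) →* ℂ) := fun u =>
    ((τ u : ℂ →+* ℂ) : ℂ →* ℂ).comp (Algebra.adjoin ℚ {zeta D}).val.toRingHom.toMonoidHom
  have hg : Function.Injective g := by
    intro u v huv
    have h1 := DFunLike.congr_fun huv
      ⟨zeta D, Algebra.subset_adjoin (Set.mem_singleton _)⟩
    have h2 : τ u (zeta D) = τ v (zeta D) := h1
    rw [hτ, hτ] at h2
    exact trace_inj h2
  have hl := (linearIndependent_monoidHom (Algebra.adjoin ℚ {zeta D}) ℂ).comp g hg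
  refine (Fintype.linearIndependent_iff.1 hl) C ?_ u
  funext z
  have := h z.1 z.2
  rw [Finset.sum_apply]
  exact this

end Pool.Agent.Y102.CM
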