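import Pool.Agent.Y102.CM.Defs

set_option autoImplicit false

namespace Pool.Agent.Y102.CM

theorem Types_ft_shift {G : Type} [AddCommGroup G] [Fintype G] (f : G → ℂ) (χ : AddChar G ℂ)
    (a : G) : ft (fun x => f (x - a)) χ = χ a * ft f χ := by
  unfold ft
  rw [Finset.mul_sum, ← Equiv.sum_comp (Equiv.addRight a)]
  apply Finset.sum_congr rfl
  intro x _
  simp only [Equiv.coe_addRight, add_sub_cancel_right, AddChar.map_add_eq_mul]
  ring

theorem Types_ft_inv {G : Type} [AddCommGroup G] [Fintype G] (f : G → ℂ) (χ : AddChar G ℂ)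
    (a : G) (hf : ∀ x, f (x + a) = f x) (h : χ a ≠ 1) : ft f χ = 0 := by
  have h1 := Types_ft_shift f χ a
  have h2 : (fun x => f (x - a)) = f := by
    funext x
    have := hf (x - a)
    rw [sub_add_cancel] at this
    exact this.symm
  rw [h2] at h1
  have h3 : (χ a - 1) * ft f χ = 0 := by
    rw [sub_mul, one_mul, ← h1, sub_self]
  rcases mul_eq_zero.mp h3 with h4 | h4
  · exact absurd (sub_eq_zero.mp h4) h
  · exact h4

theorem Types_ft_odd {G : Type} [AddCommGroup G] [Fintype G] (f : G → ℂ) (χ : AddChar G ℂ)
    (c : G) (hf : ∀ x, f (c + x) = -f x) (h : χ c = 1) : ft f χ = 0 := by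
  have h1 := Types_ft_shift f χ c
  have h2 : (fun x => f (x - c)) = fun x => -f x := by
    funext x
    have := hf (x - c)
    rw [add_sub_cancel] at this
    rw [this, neg_neg]
  rw [h2, h, one_mul] at h1
  have h3 : ft (fun x => -f x) χ = -ft f χ := by
    unfold ft
    rw [← Finset.sum_neg_distrib]
    apply Finset.sum_congr rfl
    intro x _
    ring
  rw [h3] at h1
  exact self_eq_neg.mp h1.symm

theorem Types_mem_zmultiples {C : Type} [AddCommGroup C] [Fintype C] [IsAddCyclic C] {r : ℕ}
    (hr : 0 < r) {y z : C} (hy : addOrderOf y = r) (hz : r • z = 0) :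
    z ∈ AddSubgroup.zmultiples y := by
  classical
  have h1 : (Finset.univ.filter fun a : C => r • a = 0).card ≤ r :=
    IsAddCyclic.card_nsmul_eq_zero_le hr
  have h2 : (Finset.univ.filter fun a : C => a ∈ AddSubgroup.zmultiples y).card = r := by
    rw [← hy, ← Nat.card_zmultiples, Nat.card_eq_fintype_card, Fintype.card_subtype]
  have h3 : (Finset.univ.filter fun a : C => a ∈ AddSubgroup.zmultiples y) ⊆
      Finset.univ.filter fun a : C => r • a = 0 := by
    intro a ha
    rw [Finset.mem_filter] at ha ⊢
    refine ⟨Finset.mem_univ _, ?_⟩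
    obtain ⟨k, hk⟩ := AddSubgroup.mem_zmultiples_iff.mp ha.2
    rw [← hk, ← hy, smul_comm, addOrderOf_nsmul_eq_zero, smul_zero]
  have h4 := Finset.eq_of_subset_of_card_le h3 (by rw [h2]; exact h1)
  have h5 : z ∈ Finset.univ.filter fun a : C => r • a = 0 := by
    rw [Finset.mem_filter]
    exact ⟨Finset.mem_univ _, hz⟩
  rw [← h4, Finset.mem_filter] at h5
  exact h5.2

theorem Types_faithful {C : Type} [AddCommGroup C] [Fintype C] [IsAddCyclic C]
    (ψ : AddChar C ℂ)
    (h : ∀ r : ℕ, r.Prime → r ∣ Fintype.card C → ∃ z : C, r • z = 0 ∧ ψ z ≠ 1) (x : C)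
    (hx : ψ x = 1) : x = 0 := by
  by_contra hne
  have ho : addOrderOf x ≠ 1 := by
    intro h1
    exact hne (AddMonoid.addOrderOf_eq_one_iff.mp h1)
  obtain ⟨r, hr, hrd⟩ := Nat.exists_prime_and_dvd ho
  obtain ⟨z, hz, hz1⟩ := h r hr (hrd.trans (addOrderOf_dvd_card))
  obtain ⟨k, hk⟩ := hrd
  have hk0 : k ≠ 0 := by
    intro h0
    rw [h0, mul_zero] at hk
    exact absurd hk (addOrderOf_pos x).ne'
  have hy : addOrderOf (k • x) = r := by
    rw [addOrderOf_nsmul_of_dvd hk0 ⟨r, by rw [hk, mul_comm]⟩, hk]
    exact Nat.mul_div_cancel _ (Nat.pos_of_ne_zero hk0)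
  obtain ⟨j, hj⟩ := AddSubgroup.mem_zmultiples_iff.mp (Types_mem_zmultiples hr.pos hy hz)
  apply hz1
  rw [← hj, AddChar.map_zsmul_eq_zpow, AddChar.map_nsmul_eq_pow, hx, one_pow, one_zpow]

theorem Types_w {C : Type} [AddCommGroup C] [Fintype C] (c : C) (hc : c ≠ 0)
    (hc2 : c + c = 0) (hp : ℕ → C) (P : Finset ℕ)
    (hP : ∀ p ∈ P, p.Prime ∧ p ≠ 2 ∧ hp p ≠ 0 ∧ p • hp p = 0) :
    ∃ w : C → ℤ, (∀ x, w x = 0 ∨ w x = 1 ∨ w x = -1) ∧ (∀ x, w (c + x) = -w x) ∧
      (∀ x, w x ≠ 0 → (2 * ∏ p ∈ P, p) • x = 0) ∧ w 0 = 1 ∧
      ∀ ψ : AddChar C ℂ, ft (fun x => (w x : ℂ)) ψ ≠ 0 → ψ c ≠ 1 ∧ ∀ p ∈ P, ψ (hp p) ≠ 1 := by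
  classical
  induction P using Finset.induction_on with
  | empty =>
    refine ⟨fun x => if x = 0 then 1 else if x = c then -1 else 0, ?_, ?_, ?_, ?_, ?_⟩
    · intro x
      by_cases h1 : x = 0
      · simp [h1]
      · by_cases h2 : x = c
        · simp [h2, hc]
        · simp [h1, h2]
    · intro x
      by_cases h1 : x = 0
      · simp [h1, hc]
      · by_cases h2 : x = c
        · simp [h2, hc, hc2]
        · have h3 : c + x ≠ 0 := by
            intro h
            apply h2
            have : c + x = c + c := by rw [h, hc2]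
            exact add_left_cancel this
          have h4 : c + x ≠ c := by
            intro h
            exact h1 (add_eq_left.mp h)
          simp [h1, h2, h3]
    · intro x hx
      by_cases h1 : x = 0
      · simp [h1]
      · by_cases h2 : x = c
        · rw [h2]
          simp [two_nsmul, hc2]
        · simp [h1, h2] at hx
    · simp
    · intro ψ hψ
      refine ⟨?_, by simp⟩
      intro h1
      apply hψ
      apply Types_ft_odd _ _ c _ h1
      intro x
      by_cases h1 : x = 0
      · simp [h1, hc]
      · by_cases h2 : x = c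
        · simp [h2, hc, hc2]
        · have h3 : c + x ≠ 0 := by
            intro h
            apply h2
            have : c + x = c + c := by rw [h, hc2]
            exact add_left_cancel this
          simp [h1, h2, h3]
  | insert p P hpP ih =>
    obtain ⟨w, w1, w2, w3, w4, w5⟩ := ih (fun r hr => hP r (Finset.mem_insert_of_mem hr))
    obtain ⟨hpp, hp2, hp0, hpz⟩ := hP p (Finset.mem_insert_self _ _)
    have hcop : Nat.Coprime (2 * ∏ r ∈ P, r) p := by
      apply Nat.Coprime.mul_left
      · exact (Nat.coprime_primes Nat.prime_two hpp).mpr hp2.symm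
      · apply Nat.Coprime.prod_left
        intro r hr
        refine (Nat.coprime_primes (hP r (Finset.mem_insert_of_mem hr)).1 hpp).mpr ?_
        intro h
        exact hpP (h ▸ hr)
    have hnot : ¬ (2 * ∏ r ∈ P, r) • hp p = 0 := by
      intro h
      apply hp0
      rw [← AddMonoid.addOrderOf_eq_one_iff]
      exact Nat.eq_one_of_dvd_coprimes hcop (addOrderOf_dvd_of_nsmul_eq_zero h)
        (addOrderOf_dvd_of_nsmul_eq_zero hpz)
    refine ⟨fun x => w x - w (x - hp p), ?_, ?_, ?_, ?_, ?_⟩
    · intro x
      by_cases h1 : w x = 0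
      · rcases w1 (x - hp p) with h | h | h <;> simp [h1, h]
      · have h2 : w (x - hp p) = 0 := by
          by_contra h2
          apply hnot
          have e1 := w3 x h1
          have e2 := w3 _ h2
          rw [smul_sub, e1, zero_sub, neg_eq_zero] at e2
          exact e2
        rcases w1 x with h | h | h <;> simp [h2, h]
    · intro x
      have e : c + x - hp p = c + (x - hp p) := add_sub_assoc _ _ _
      simp only [e, w2]
      ring
    · intro x hx
      have hprod : (2 * ∏ r ∈ insert p P, r) = p * (2 * ∏ r ∈ P, r) := by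
        rw [Finset.prod_insert hpP]
        ring
      rw [hprod]
      by_cases h1 : w x = 0
      · have h2 : w (x - hp p) ≠ 0 := by
          intro h2
          apply hx
          simp [h1, h2]
        have e2 := w3 _ h2
        rw [smul_sub, sub_eq_zero] at e2
        rw [mul_nsmul', e2, ← mul_nsmul', mul_nsmul, hpz, smul_zero]
      · rw [mul_nsmul', w3 x h1, smul_zero]
    · have h2 : w (0 - hp p) = 0 := by
        by_contra h2
        apply hnot
        have e2 := w3 _ h2
        rw [zero_sub, smul_neg, neg_eq_zero] at e2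
        exact e2
      simp only [h2, w4, sub_zero]
    · intro ψ hψ
      have e : ft (fun x => (((w x - w (x - hp p) : ℤ)) : ℂ)) ψ =
          (1 - ψ (hp p)) * ft (fun x => (w x : ℂ)) ψ := by
        have e1 := Types_ft_shift (fun x => (w x : ℂ)) ψ (hp p)
        rw [sub_mul, one_mul, ← e1]
        unfold ft
        rw [← Finset.sum_sub_distrib]
        apply Finset.sum_congr rfl
        intro x _
        push_cast
        ring
      rw [e] at hψ
      have h1 : 1 - ψ (hp p) ≠ 0 := left_ne_zero_of_mul hψ
      have h2 := w5 ψ (right_ne_zero_of_mul hψ)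
      refine ⟨h2.1, ?_⟩
      intro r hr
      rcases Finset.mem_insert.mp hr with h | h
      · rw [h]
        intro h3
        exact h1 (by rw [h3, sub_self])
      · exact h2.2 r h

/-- On every cyclic group of even order there is a CM type whose Fourier coefficients vanish at the
characters which are neither faithful nor trivial on a given element. -/
theorem exists_type {C : Type} [AddCommGroup C] [Fintype C] [IsAddCyclic C] (c : C) (hc : c ≠ 0)
    (hc2 : c + c = 0) : ∃ (f : C → ℤ) (h : C), (∀ x, f x = 1 ∨ f x = -1) ∧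
      (∀ x, f (c + x) = -f x) ∧ (∃ x, f (h + x) ≠ f x) ∧
      ∀ ψ : AddChar C ℂ, ft (fun x => (f x : ℂ)) ψ ≠ 0 → (∀ x, ψ x = 1 → x = 0) ∨ ψ h = 1 := by
  classical
  -- an odd function which is invariant under every odd multiple
  have key : ∀ q : ℕ, Odd q → ∃ s : C → ℤ, (∀ x, s x = 1 ∨ s x = -1) ∧
      (∀ x, s (c + x) = -s x) ∧ ∀ a x : C, q • a = 0 → s (x + a) = s x := by
    intro q hq
    let e := Fintype.equivFin C
    have hqc : q • c = c := by
      obtain ⟨k, hk⟩ := hq
      rw [hk, add_nsmul, one_nsmul, mul_comm, mul_nsmul', two_nsmul, hc2, smul_zero, zero_add]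
    refine ⟨fun x => if e (q • x) < e (q • (c + x)) then 1 else -1, ?_, ?_, ?_⟩
    · intro x
      by_cases h : e (q • x) < e (q • (c + x))
      · left
        exact if_pos h
      · right
        exact if_neg h
    · intro x
      have h1 : q • (c + (c + x)) = q • x := by
        rw [← add_assoc, hc2, zero_add]
      have h2 : e (q • x) ≠ e (q • (c + x)) := by
        intro h
        have h3 := e.injective h
        rw [smul_add, hqc] at h3
        exact hc (right_eq_add.mp h3)
      simp only [h1]
      rcases lt_or_gt_of_ne h2 with h | h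
      · rw [if_pos h, if_neg (not_lt.mpr h.le)]
      · rw [if_pos h, if_neg (not_lt.mpr h.le), neg_neg]
    · intro a x ha
      simp only [smul_add, ha, add_zero]
  by_cases hodd : ∃ q : ℕ, q.Prime ∧ q ≠ 2 ∧ q ∣ Fintype.card C
  · obtain ⟨q, hq, hq2, hqd⟩ := hodd
    have hch : ∀ p : ℕ, ∃ z : C, p.Prime → p ∣ Fintype.card C → addOrderOf z = p := by
      intro p
      by_cases h : p.Prime ∧ p ∣ Fintype.card C
      · have := Fact.mk h.1
        obtain ⟨z, hz⟩ := exists_prime_addOrderOf_dvd_card p h.2
        exact ⟨z, fun _ _ => hz⟩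
      · exact ⟨0, fun h1 h2 => absurd ⟨h1, h2⟩ h⟩
    choose hp hhp using hch
    have hhp0 : ∀ p : ℕ, p.Prime → p ∣ Fintype.card C → hp p ≠ 0 := by
      intro p h1 h2 h3
      have := hhp p h1 h2
      rw [h3, addOrderOf_zero] at this
      exact h1.one_lt.ne this
    have hhpz : ∀ p : ℕ, p.Prime → p ∣ Fintype.card C → p • hp p = 0 := by
      intro p h1 h2
      have := addOrderOf_nsmul_eq_zero (hp p)
      rwa [hhp p h1 h2] at this
    let P : Finset ℕ := (Fintype.card C).primeFactors.filter fun p => p ≠ 2 ∧ p ≠ q
    have hPmem : ∀ p ∈ P, p.Prime ∧ p ∣ Fintype.card C ∧ p ≠ 2 ∧ p ≠ q := by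
      intro p h
      have h1 := Finset.mem_filter.mp h
      exact ⟨Nat.prime_of_mem_primeFactors h1.1, Nat.dvd_of_mem_primeFactors h1.1, h1.2⟩
    obtain ⟨w, w1, w2, w3, w4, w5⟩ := Types_w c hc hc2 hp P (by
      intro p h
      obtain ⟨h1, h2, h3, -⟩ := hPmem p h
      exact ⟨h1, h3, hhp0 p h1 h2, hhpz p h1 h2⟩)
    have hcop : Nat.Coprime (2 * ∏ r ∈ P, r) q := by
      apply Nat.Coprime.mul_left
      · exact (Nat.coprime_primes Nat.prime_two hq).mpr hq2.symm
      · apply Nat.Coprime.prod_left
        intro r hr
        exact (Nat.coprime_primes (hPmem r hr).1 hq).mpr (hPmem r hr).2.2.2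
    have hzero : ∀ a : C, (2 * ∏ r ∈ P, r) • a = 0 → q • a = 0 → a = 0 := by
      intro a h1 h2
      rw [← AddMonoid.addOrderOf_eq_one_iff]
      exact Nat.eq_one_of_dvd_coprimes hcop (addOrderOf_dvd_of_nsmul_eq_zero h1)
        (addOrderOf_dvd_of_nsmul_eq_zero h2)
    obtain ⟨s, s1, s2, s3⟩ := key q (hq.odd_of_ne_two hq2)
    -- the set of elements killed by q
    let Q : Finset C := Finset.univ.filter fun a => q • a = 0
    have hQ : ∀ a, a ∈ Q ↔ q • a = 0 := by
      intro a
      simp [Q]
    let v : C → ℤ := fun x => ∑ a ∈ Q, w (x + a)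
    have hv : ∀ x, w x ≠ 0 → v x = w x := by
      intro x hx
      have : v x = w (x + 0) := by
        apply Finset.sum_eq_single_of_mem 0 ((hQ 0).mpr (smul_zero _))
        intro a ha ha0
        by_contra hw
        apply ha0
        have e2 := w3 _ hw
        rw [smul_add, w3 x hx, zero_add] at e2
        exact hzero a e2 ((hQ a).mp ha)
      rw [this, add_zero]
    have hvinv : ∀ a x, q • a = 0 → v (x + a) = v x := by
      intro a x ha
      apply Finset.sum_bij' (fun b _ => a + b) (fun b _ => b - a)
      · intro b hb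
        rw [hQ] at hb ⊢
        rw [smul_add, ha, hb, add_zero]
      · intro b hb
        rw [hQ] at hb ⊢
        rw [smul_sub, ha, hb, sub_zero]
      · intro b _
        abel
      · intro b _
        abel
      · intro b _
        rw [add_assoc]
    have hvv : ∀ x, v x = 0 ∨ v x = 1 ∨ v x = -1 := by
      intro x
      by_cases h : ∃ a ∈ Q, w (x + a) ≠ 0
      · obtain ⟨a, ha, hw⟩ := h
        have h1 := hv _ hw
        rw [hvinv a x ((hQ a).mp ha)] at h1
        rw [h1]
        exact w1 _
      · left
        push Not at h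
        exact Finset.sum_eq_zero h
    have hvodd : ∀ x, v (c + x) = -v x := by
      intro x
      simp only [v]
      rw [← Finset.sum_neg_distrib]
      apply Finset.sum_congr rfl
      intro a _
      rw [add_assoc, w2]
    let M : C → ℤ := fun x => if v x ≠ 0 then -v x else s x
    have hM1 : ∀ x, M x = 1 ∨ M x = -1 := by
      intro x
      by_cases h : v x = 0
      · simp only [M, h, ne_eq, not_true_eq_false, if_false]
        exact s1 x
      · have h2 : M x = -v x := by simp [M, h]
        rw [h2]
        rcases hvv x with h3 | h3 | h3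
        · exact absurd h3 h
        · right
          rw [h3]
        · left
          rw [h3]
          norm_num
    have hM2 : ∀ x, M (c + x) = -M x := by
      intro x
      simp only [M, hvodd, s2]
      by_cases h : v x = 0
      · simp [h]
      · simp [h]
    have hM3 : ∀ a x, q • a = 0 → M (x + a) = M x := by
      intro a x ha
      simp only [M, hvinv a x ha, s3 a x ha]
    have hM4 : ∀ x, w x ≠ 0 → M x = -w x := by
      intro x hx
      have h1 := hv x hx
      have h2 : v x ≠ 0 := by
        rw [h1]
        exact hx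
      simp only [M]
      rw [if_pos h2, h1]
    have hh0 := hhp0 q hq hqd
    have hhz := hhpz q hq hqd
    refine ⟨fun x => M x + 2 * w x, hp q, ?_, ?_, ⟨0, ?_⟩, ?_⟩
    · intro x
      by_cases h : w x = 0
      · simp only [h, mul_zero, add_zero]
        exact hM1 x
      · have h1 := hM4 x h
        rcases w1 x with h2 | h2 | h2
        · exact absurd h2 h
        · left
          show M x + 2 * w x = 1
          rw [h1, h2]
          norm_num
        · right
          show M x + 2 * w x = -1
          rw [h1, h2]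
          norm_num
    · intro x
      simp only [hM2, w2]
      ring
    · have h1 : w (hp q) = 0 := by
        by_contra h
        exact hh0 (hzero _ (w3 _ h) hhz)
      have h2 : M 0 = -1 := by
        rw [hM4 0 (by rw [w4]; norm_num), w4]
      have h3 : M (hp q) = M 0 := by
        have := hM3 (hp q) 0 hhz
        rwa [zero_add] at this
      simp only [add_zero, h1, h3, h2, w4]
      norm_num
    · intro ψ hψ
      by_cases h1 : ψ (hp q) = 1
      · right
        exact h1
      · left
        have hMz : ft (fun x => (M x : ℂ)) ψ = 0 := by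
          apply Types_ft_inv _ _ (hp q) _ h1
          intro x
          rw [hM3 _ _ hhz]
        have e : ft (fun x => ((M x + 2 * w x : ℤ) : ℂ)) ψ =
            ft (fun x => (M x : ℂ)) ψ + 2 * ft (fun x => (w x : ℂ)) ψ := by
          unfold ft
          rw [Finset.mul_sum, ← Finset.sum_add_distrib]
          apply Finset.sum_congr rfl
          intro x _
          push_cast
          ring
        rw [e, hMz, zero_add] at hψ
        obtain ⟨h2, h3⟩ := w5 ψ (right_ne_zero_of_mul hψ)
        apply Types_faithful
        intro r hr hrd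
        by_cases hr2 : r = 2
        · refine ⟨c, ?_, h2⟩
          rw [hr2, two_nsmul, hc2]
        · refine ⟨hp r, hhpz r hr hrd, ?_⟩
          by_cases hrq : r = q
          · rw [hrq]
            exact h1
          · apply h3
            apply Finset.mem_filter.mpr
            refine ⟨?_, hr2, hrq⟩
            exact Nat.mem_primeFactors.mpr ⟨hr, hrd, Fintype.card_ne_zero⟩
  · push Not at hodd
    obtain ⟨s, s1, s2, -⟩ := key 1 odd_one
    refine ⟨s, c, s1, s2, ⟨0, ?_⟩, ?_⟩
    · rw [s2]
      rcases s1 0 with h | h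
      · rw [h]
        norm_num
      · rw [h]
        norm_num
    · intro ψ hψ
      left
      apply Types_faithful
      intro r hr hrd
      have hr2 : r = 2 := by
        by_contra h
        exact hodd r hr h hrd
      refine ⟨c, ?_, ?_⟩
      · rw [hr2, two_nsmul, hc2]
      · intro h
        apply hψ
        apply Types_ft_odd _ _ c _ h
        intro x
        rw [s2]
        push_cast
        rfl

end Pool.Agent.Y102.CM
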